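import Mathlib

/-!
# Forbidden Berge hypergraphs: the product `1_1 × C_4`

For a `(0,1)`-matrix `F`, `Bh m F` is the largest number of columns of an `m`-rowed simple
`(0,1)`-matrix that does not have `F` as a Berge hypergraph. We show that for
`F = 1_1 × C_4` (with `C_4 = I_2 × I_2`) one has `Bh m F ≥ m^(5/2) / 16000` for every `m`, so
that `Bh m F` is not `Θ(m^2)`.

The construction: three copies of `(ZMod p)^2` as rows, and as columns all triples
`(x, y, z)` with `x + y + z` on the parabola `{(t, t^2)}`, which is a Sidon set.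
-/

open Filter Asymptotics

namespace Pool.Agent.Results.MP_4da166_co.LowerFiveHalves

/-- A `(0,1)`-matrix with `m` rows and `n` columns is given by its entries `A i j : Fin 2`. It is
simple if no two of its columns are equal. -/
def Simple {m n : ℕ} (A : Matrix (Fin m) (Fin n) (Fin 2)) : Prop :=
  ∀ j j' : Fin n, (∀ i, A i j = A i j') → j = j'

/-- `F` is a Berge hypergraph of `A`: choosing distinct rows `ρ i` and distinct columns `κ j` of
`A` (in any order, so that row and column permutations of `F` are allowed), `F` is entrywise at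
most the resulting matrix. -/
def Berge {k l m n : ℕ} (F : Matrix (Fin k) (Fin l) (Fin 2)) (A : Matrix (Fin m) (Fin n) (Fin 2)) :
    Prop :=
  ∃ (ρ : Fin k → Fin m) (κ : Fin l → Fin n), Function.Injective ρ ∧ Function.Injective κ ∧
    ∀ i j, F i j ≤ A (ρ i) (κ j)

/-- `Bh m F` is the maximal number of columns of a simple `m`-rowed `(0,1)`-matrix which does not
have `F` as a Berge hypergraph. -/
noncomputable def Bh {k l : ℕ} (m : ℕ) (F : Matrix (Fin k) (Fin l) (Fin 2)) : ℕ :=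
  sSup {n : ℕ | ∃ A : Matrix (Fin m) (Fin n) (Fin 2), Simple A ∧ ¬ Berge F A}

/-- The matrix `1_1 × C_4`, where `C_4 = I_2 × I_2`. -/
def F14 : Matrix (Fin 5) (Fin 4) (Fin 2) :=
  !![1, 1, 1, 1;
     1, 1, 0, 0;
     0, 0, 1, 1;
     1, 0, 1, 0;
     0, 1, 0, 1]

lemma bdd {k l : ℕ} (m : ℕ) (F : Matrix (Fin k) (Fin l) (Fin 2)) :
    BddAbove {n : ℕ | ∃ A : Matrix (Fin m) (Fin n) (Fin 2), Simple A ∧ ¬ Berge F A} := by
  refine ⟨2 ^ m, ?_⟩
  rintro n ⟨A, hA, -⟩
  have h : Function.Injective (fun j : Fin n => fun i : Fin m => A i j) := by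
    intro j j' h
    exact hA j j' fun i => congrFun h i
  have := Fintype.card_le_of_injective _ h
  simpa using this

lemma le_Bh {k l m n : ℕ} {F : Matrix (Fin k) (Fin l) (Fin 2)} {R C : Type*} [Fintype R]
    [Fintype C] (e : Fintype.card R ≤ m) (hC : Fintype.card C = n) (P : R → C → Prop)
    (hs : ∀ c c', (∀ r, P r c ↔ P r c') → c = c')
    (hk2 : ∀ i : Fin k, ∃ j, F i j = 1)
    (hF : ¬ ∃ (ρ : Fin k → R) (κ : Fin l → C), Function.Injective ρ ∧
      ∀ i j, F i j = 1 → P (ρ i) (κ j)) : n ≤ Bh m F := by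
  classical
  apply le_csSup (bdd m F)
  have e1 : Nonempty (R ↪ Fin m) := by
    apply Function.Embedding.nonempty_of_card_le
    simpa using e
  obtain ⟨e1⟩ := e1
  have e2 : Nonempty (Fin n ≃ C) := ⟨(Fintype.equivFinOfCardEq hC).symm⟩
  obtain ⟨e2⟩ := e2
  refine ⟨fun i j => if ∃ r, e1 r = i ∧ P r (e2 j) then 1 else 0, ?_, ?_⟩
  · intro j j' h
    apply e2.injective
    apply hs
    intro r
    have := h (e1 r)
    have aux : ∀ c : C, (∃ r', e1 r' = e1 r ∧ P r' c) ↔ P r c := by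
      intro c
      constructor
      · rintro ⟨r', h1, h2⟩
        rwa [e1.injective h1] at h2
      · intro h; exact ⟨r, rfl, h⟩
    simp only [aux] at this
    by_cases h1 : P r (e2 j) <;> by_cases h2 : P r (e2 j') <;> simp_all
  · rintro ⟨ρ, κ, hρ, -, h⟩
    apply hF
    have key : ∀ i j, F i j = 1 → ∃ r, e1 r = ρ i ∧ P r (e2 (κ j)) := by
      intro i j hij
      have := h i j
      rw [hij] at this
      by_contra hc
      beta_reduce at this
      rw [if_neg hc] at this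
      exact absurd this (by decide)
    choose r hr using fun i => (hk2 i).imp fun j hj => key i j hj
    choose j hj using hk2
    choose r hr using fun i => key i (j i) (hj i)
    refine ⟨r, fun j => e2 (κ j), ?_, ?_⟩
    · intro i i' hii
      apply hρ
      rw [← (hr i).1, ← (hr i').1, hii]
    · intro i j hij
      obtain ⟨r', h1, h2⟩ := key i j hij
      have : r' = r i := e1.injective (by rw [h1, (hr i).1])
      rwa [this] at h2

/-- the three coordinates of a column -/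
def crd {p : ℕ} (c : (ZMod p × ZMod p) × (ZMod p × ZMod p) × ZMod p) (i : Fin 3) :
    ZMod p × ZMod p :=
  match i with
  | 0 => c.1
  | 1 => c.2.1
  | 2 => (c.2.2, c.2.2 ^ 2) - c.1 - c.2.1

lemma crd_sum {p : ℕ} (c : (ZMod p × ZMod p) × (ZMod p × ZMod p) × ZMod p) :
    crd c 0 + crd c 1 + crd c 2 = (c.2.2, c.2.2 ^ 2) := by
  simp [crd]

lemma sidon {p : ℕ} [Fact p.Prime] (hp : p ≠ 2) {a b c d : ZMod p}
    (h1 : a - b = c - d) (h2 : a ^ 2 - b ^ 2 = c ^ 2 - d ^ 2) (hab : a ≠ b) : a = c := by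
  have h3 : (a - b) * (a + b) = (a - b) * (c + d) := by
    have : (c - d) * (c + d) = c ^ 2 - d ^ 2 := by ring
    rw [show (a - b) * (c + d) = (c - d) * (c + d) by rw [h1], this, ← h2]; ring
  have h4 : a + b = c + d := mul_left_cancel₀ (sub_ne_zero.2 hab) h3
  have h5 : (2 : ZMod p) * (a - c) = 0 := by linear_combination h1 + h4
  have h2' : (2 : ZMod p) ≠ 0 := by
    intro h
    have : ((2 : ℕ) : ZMod p) = 0 := by exact_mod_cast h
    rw [ZMod.natCast_eq_zero_iff] at this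
    have hp' := (Fact.out : p.Prime)
    have := (Nat.prime_dvd_prime_iff_eq hp' Nat.prime_two).1 this
    exact hp this
  rcases mul_eq_zero.1 h5 with h | h
  · exact absurd h h2'
  · exact sub_eq_zero.1 h

lemma core {p : ℕ} [Fact p.Prime] (hp : p ≠ 2) :
    ¬ ∃ (ρ : Fin 5 → Fin 3 × (ZMod p × ZMod p))
      (κ : Fin 4 → (ZMod p × ZMod p) × (ZMod p × ZMod p) × ZMod p), Function.Injective ρ ∧
      ∀ i j, F14 i j = 1 → (ρ i).2 = crd (κ j) (ρ i).1 := by
  rintro ⟨ρ, κ, hρ, h⟩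
  have g : ∀ i j, F14 i j = 1 → (ρ i).2 = crd (κ j) (ρ i).1 := h
  -- two rows in a common column have different parts
  have par : ∀ i i' j, F14 i j = 1 → F14 i' j = 1 → i ≠ i' → (ρ i).1 ≠ (ρ i').1 := by
    intro i i' j hi hi' hne heq
    apply hne
    apply hρ
    ext1
    · exact heq
    · rw [g i j hi, g i' j hi', heq]
  have sum : ∀ i i' i'' j, F14 i j = 1 → F14 i' j = 1 → F14 i'' j = 1 → i ≠ i' → i ≠ i'' →
      i' ≠ i'' → (ρ i).2 + (ρ i').2 + (ρ i'').2 = ((κ j).2.2, (κ j).2.2 ^ 2) := by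
    intro i i' i'' j h1 h2 h3 n1 n2 n3
    have a1 := par i i' j h1 h2 n1
    have a2 := par i i'' j h1 h3 n2
    have a3 := par i' i'' j h2 h3 n3
    rw [g i j h1, g i' j h2, g i'' j h3, ← crd_sum]
    generalize (ρ i).1 = x at *
    generalize (ρ i').1 = y at *
    generalize (ρ i'').1 = z at *
    fin_cases x <;> fin_cases y <;> fin_cases z <;> simp at a1 a2 a3 <;> simp only [Fin.reduceFinMk, Fin.zero_eta, Fin.mk_one, Fin.isValue] <;> abel
  have s0 := sum 0 1 3 0 (by decide) (by decide) (by decide) (by decide) (by decide) (by decide)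
  have s1 := sum 0 1 4 1 (by decide) (by decide) (by decide) (by decide) (by decide) (by decide)
  have s2 := sum 0 2 3 2 (by decide) (by decide) (by decide) (by decide) (by decide) (by decide)
  have s3 := sum 0 2 4 3 (by decide) (by decide) (by decide) (by decide) (by decide) (by decide)
  have p01 := par 0 1 0 (by decide) (by decide) (by decide)
  have p03 := par 0 3 0 (by decide) (by decide) (by decide)
  have p13 := par 1 3 0 (by decide) (by decide) (by decide)
  have p04 := par 0 4 1 (by decide) (by decide) (by decide)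
  have p14 := par 1 4 1 (by decide) (by decide) (by decide)
  have p02 := par 0 2 2 (by decide) (by decide) (by decide)
  have p23 := par 2 3 2 (by decide) (by decide) (by decide)
  have e34 : (ρ 3).1 = (ρ 4).1 := by omega
  have e12 : (ρ 1).1 = (ρ 2).1 := by omega
  have n34 : (ρ 3).2 ≠ (ρ 4).2 := by
    intro h'
    have : (3 : Fin 5) = 4 := hρ (Prod.ext e34 h')
    exact absurd this (by decide)
  have n12 : (ρ 1).2 ≠ (ρ 2).2 := by
    intro h'
    have : (1 : Fin 5) = 2 := hρ (Prod.ext e12 h')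
    exact absurd this (by decide)
  set a := (κ 0).2.2
  set b := (κ 1).2.2
  set c := (κ 2).2.2
  set d := (κ 3).2.2
  have q1 : (a, a ^ 2) - (b, b ^ 2) = (ρ 3).2 - (ρ 4).2 := by
    rw [← s0, ← s1]; abel
  have q2 : (c, c ^ 2) - (d, d ^ 2) = (ρ 3).2 - (ρ 4).2 := by
    rw [← s2, ← s3]; abel
  have hab : a ≠ b := by
    intro h'
    rw [h', sub_self] at q1
    exact n34 (sub_eq_zero.1 q1.symm)
  have q3 := q1.trans q2.symm
  have q4 : a - b = c - d := congrArg Prod.fst q3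
  have q5 : a ^ 2 - b ^ 2 = c ^ 2 - d ^ 2 := congrArg Prod.snd q3
  have hac := sidon hp q4 q5 hab
  apply n12
  have : (ρ 0).2 + (ρ 1).2 + (ρ 3).2 = (ρ 0).2 + (ρ 2).2 + (ρ 3).2 := by
    rw [s0, s2, hac]
  simpa using this

lemma F14_rows : ∀ i : Fin 5, ∃ j : Fin 4, F14 i j = 1 := by
  intro i
  fin_cases i
  exacts [⟨0, rfl⟩, ⟨0, rfl⟩, ⟨2, rfl⟩, ⟨0, rfl⟩, ⟨1, rfl⟩]

lemma prime_bound {p m : ℕ} (hp : p.Prime) (hp2 : p ≠ 2) (hm : 3 * p ^ 2 ≤ m) :
    p ^ 5 ≤ Bh m F14 := by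
  have : Fact p.Prime := ⟨hp⟩
  have hpos : NeZero p := ⟨hp.ne_zero⟩
  refine le_Bh (R := Fin 3 × (ZMod p × ZMod p))
    (C := (ZMod p × ZMod p) × (ZMod p × ZMod p) × ZMod p) ?_ ?_
    (fun r c => r.2 = crd c r.1) ?_ F14_rows (core hp2)
  · simp only [Fintype.card_prod, Fintype.card_fin, ZMod.card]
    nlinarith
  · simp only [Fintype.card_prod, ZMod.card]
    ring
  · intro c c' h
    have h' : ∀ i, crd c i = crd c' i := fun i => (h (i, crd c i)).1 rfl
    have h0 : c.1 = c'.1 := h' 0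
    have h1 : c.2.1 = c'.2.1 := h' 1
    have hs := crd_sum c
    rw [h' 0, h' 1, h' 2, crd_sum c'] at hs
    have h2 : c.2.2 = c'.2.2 := (congrArg Prod.fst hs).symm
    exact Prod.ext h0 (Prod.ext h1 h2)

lemma one_le_Bh (m : ℕ) : 1 ≤ Bh m F14 := by
  apply le_csSup (bdd m F14)
  refine ⟨fun _ _ => 0, ?_, ?_⟩
  · intro j j' _
    exact Subsingleton.elim _ _
  · rintro ⟨ρ, κ, -, hκ, -⟩
    have : (0 : Fin 4) = 1 := hκ (Subsingleton.elim _ _)
    exact absurd this (by decide)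

lemma lower (m : ℕ) : (m : ℝ) ^ (5 / 2 : ℝ) / 16000 ≤ (Bh m F14 : ℝ) := by
  by_cases hm : m < 48
  · have h1 : (1 : ℝ) ≤ Bh m F14 := by exact_mod_cast one_le_Bh m
    refine le_trans ?_ h1
    rw [div_le_one (by norm_num)]
    have h2 : (m : ℝ) ^ (5 / 2 : ℝ) ≤ (48 : ℝ) ^ (5 / 2 : ℝ) := by
      apply Real.rpow_le_rpow (by positivity)
      · exact_mod_cast hm.le
      · norm_num
    refine h2.trans ?_
    have h3 : (48 : ℝ) ^ (5 / 2 : ℝ) = Real.sqrt (48 ^ 5) := by
      rw [Real.sqrt_eq_rpow, ← Real.rpow_natCast, ← Real.rpow_mul (by norm_num)]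
      norm_num
    rw [h3]
    apply Real.sqrt_le_iff.2
    norm_num
  · push Not at hm
    set s := Nat.sqrt (m / 3) with hs
    have hs4 : 4 ≤ s := by
      rw [hs, Nat.le_sqrt]
      omega
    obtain ⟨p, hp, hp1, hp2⟩ := Nat.exists_prime_lt_and_le_two_mul (s / 2) (by omega)
    have hps : p ≤ s := by omega
    have hp3 : p ≠ 2 := by omega
    have hsq : s * s ≤ m / 3 := Nat.sqrt_le _
    have hlt : m / 3 < (s + 1) * (s + 1) := Nat.lt_succ_sqrt _
    have hb := prime_bound (m := m) hp hp3 (by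
      have : p ^ 2 ≤ s * s := by nlinarith
      omega)
    have hb' : (p : ℝ) ^ 5 ≤ Bh m F14 := by exact_mod_cast hb
    refine le_trans ?_ hb'
    -- m < 3 (s+1)^2 and s + 1 ≤ 2 p
    have h1 : s + 1 ≤ 2 * p := by omega
    have h2 : m < 3 * ((s + 1) * (s + 1)) := by omega
    have h3 : m ≤ 12 * p ^ 2 := by nlinarith
    have h4 : (m : ℝ) ≤ 12 * (p : ℝ) ^ 2 := by exact_mod_cast h3
    have h5 : (m : ℝ) ^ (5 / 2 : ℝ) ≤ (12 * (p : ℝ) ^ 2) ^ (5 / 2 : ℝ) := by
      apply Real.rpow_le_rpow (by positivity) h4 (by norm_num)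
    have h6 : (12 * (p : ℝ) ^ 2) ^ (5 / 2 : ℝ) = (12 : ℝ) ^ (5 / 2 : ℝ) * (p : ℝ) ^ 5 := by
      rw [Real.mul_rpow (by norm_num) (by positivity)]
      congr 1
      rw [← Real.rpow_natCast, ← Real.rpow_mul (by positivity), ← Real.rpow_natCast]
      norm_num
    have h7 : (12 : ℝ) ^ (5 / 2 : ℝ) ≤ 16000 := by
      have h3 : (12 : ℝ) ^ (5 / 2 : ℝ) = Real.sqrt (12 ^ 5) := by
        rw [Real.sqrt_eq_rpow, ← Real.rpow_natCast, ← Real.rpow_mul (by norm_num)]
        norm_num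
      rw [h3]
      apply Real.sqrt_le_iff.2
      norm_num
    rw [div_le_iff₀ (by norm_num)]
    rw [h6] at h5
    have h8 : (0 : ℝ) ≤ (p : ℝ) ^ 5 := by positivity
    nlinarith

/-- `Bh m (1_1 × C_4) ≥ m^(5/2) / 16000` for all `m`; in particular `Bh m (1_1 × C_4)` is not of
order `m^2`. -/
theorem result :
    (∀ m : ℕ, (m : ℝ) ^ (5 / 2 : ℝ) / 16000 ≤ (Bh m F14 : ℝ)) ∧
      ¬ (fun m : ℕ => (Bh m F14 : ℝ)) =Θ[atTop] (fun m : ℕ => (m : ℝ) ^ 2) := by
  refine ⟨lower, ?_⟩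
  intro h
  obtain ⟨C, hC⟩ := h.1.bound
  -- m^(5/2)/16000 ≤ C m^2 eventually is impossible
  have h1 : ∀ᶠ m : ℕ in atTop, (m : ℝ) ^ (1 / 2 : ℝ) ≤ 16000 * C := by
    filter_upwards [hC, eventually_ge_atTop 1] with m hm hm1
    have hm0 : (0 : ℝ) < m := by exact_mod_cast hm1
    have h2 := lower m
    rw [Real.norm_of_nonneg (by positivity), Real.norm_of_nonneg (by positivity)] at hm
    have h3 : (m : ℝ) ^ (5 / 2 : ℝ) = (m : ℝ) ^ (1 / 2 : ℝ) * (m : ℝ) ^ 2 := by
      rw [← Real.rpow_natCast, ← Real.rpow_add hm0]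
      norm_num
    rw [h3] at h2
    have h4 : 0 < (m : ℝ) ^ 2 := by positivity
    have h5 : (m : ℝ) ^ (1 / 2 : ℝ) * (m : ℝ) ^ 2 ≤ 16000 * C * (m : ℝ) ^ 2 := by
      linarith
    exact le_of_mul_le_mul_right h5 h4
  have h2 : Tendsto (fun m : ℕ => (m : ℝ) ^ (1 / 2 : ℝ)) atTop atTop :=
    (tendsto_rpow_atTop (by norm_num)).comp tendsto_natCast_atTop_atTop
  obtain ⟨m, hm1, hm2⟩ := (h1.and (h2.eventually_gt_atTop (16000 * C))).exists
  linarith

end Pool.Agent.Results.MP_4da166_co.LowerFiveHalves
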